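import Pool.Agent.Lib.MP_1a91b9_ntK.Q.All

/-!
# MC, part R, file Defs: the statement of part D
-/

set_option autoImplicit false

namespace Pool.Agent.Lib.MP_1a91b9_ntN

open NumberField Finset Pool.Agent.Lib.MP_1a91b9_ntT Pool.Agent.Lib.MP_1a91b9_ntK
  Pool.Agent.Lib.MP_1a91b9_ntK2 Pool.Agent.Lib.MP_1a91b9_ntK2.D9
open Pool.Agent.Lib.MP_1a91b9_ntH (Sx)

noncomputable section

/-- The pair `(S, T)` is good for the unit `w ^ k` and the power `s3 ^ j`. -/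
def Gd9 (k j : Fin 3) (S T : Finset P3) : Prop :=
  Good9 (false, k, j, cl3 (DD3 S * DD3 T ^ 2), cn3 (DD3 S * DD3 T ^ 2)) S T

open Classical in
/-- The joint density of the good sets of primes (part D). -/
def DSJ3 : Prop := ∀ N : ℕ, 0 < N → ∀ (k j : Fin N → Fin 3) (P T : Fin N → Finset P3)
  (B : Finset P3), (∀ i, P i ⊆ B) → (∀ i, T i ⊆ B) → (∀ i, Disjoint (P i) (T i)) →
  Function.Injective (fun i => (k i, j i, P i, T i)) → ∀ (α β : ZMod 3) (κ₀ : ℝ),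
  κ₀ < Da.cinf3 ^ N → ∀ ε : ℝ, 0 < ε → ∃ X₀ : ℕ, ∀ X : ℕ, X₀ ≤ X →
    κ₀ * (((Sx P3 X).filter fun S => Disjoint S B ∧ ∑ q ∈ S, d3b.a q = α ∧
      ∑ q ∈ S, d3b.b q = β).card : ℝ) - ε * X ≤
    (((Sx P3 X).filter fun S => Disjoint S B ∧ (∑ q ∈ S, d3b.a q = α ∧
      ∑ q ∈ S, d3b.b q = β) ∧ ∀ i, Gd9 (k i) (j i) (S ∪ P i) (T i)).card : ℝ)

end

end Pool.Agent.Lib.MP_1a91b9_ntN
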