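import Pool.Agent.Lib.MP_1a91b9_ntK.Q.All

/-!
# MC, part R, file Sqf: the cube-free part of an element and of a product
-/

set_option autoImplicit false

namespace Pool.Agent.Lib.MP_1a91b9_ntN

open NumberField Finset Pool.Agent.Lib.MP_1a91b9_ntT Pool.Agent.Lib.MP_1a91b9_ntK
  Pool.Agent.Lib.MP_1a91b9_ntK2 Pool.Agent.Lib.MP_1a91b9_ntK2.D9
open Pool.Agent.Lib.MP_1a91b9_ntH (wO s3 Nz Nz_mul Nz_two_le Nz_eq_zero prime_s3)

noncomputable section

/-- The product of the powers of the primes. -/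
def PE (e : P3 → ZMod 3) (R : Finset P3) : 𝓞 K := ∏ q ∈ R, q.1 ^ (e q).val

/-- The exponents of a pair. -/
def ez (S T : Finset P3) (q : P3) : ZMod 3 := if q ∈ S then 1 else if q ∈ T then 2 else 0

theorem ez_one {S T : Finset P3} {q : P3} (h : q ∈ S) : ez S T q = 1 := if_pos h

theorem ez_two {S T : Finset P3} {q : P3} (h : q ∉ S) (h' : q ∈ T) : ez S T q = 2 := by
  rw [ez, if_neg h, if_pos h']

theorem ez_zero {S T : Finset P3} {q : P3} (h : q ∉ S) (h' : q ∉ T) : ez S T q = 0 := by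
  rw [ez, if_neg h, if_neg h']

theorem ez_eq_one {S T : Finset P3} {q : P3} : ez S T q = 1 ↔ q ∈ S := by
  unfold ez
  split_ifs with h1 h2
  · exact ⟨fun _ => h1, fun _ => rfl⟩
  · exact ⟨fun h => absurd h (by decide), fun h => absurd h h1⟩
  · exact ⟨fun h => absurd h (by decide), fun h => absurd h h1⟩

theorem ez_eq_two {S T : Finset P3} (hST : Disjoint S T) {q : P3} : ez S T q = 2 ↔ q ∈ T := by
  unfold ez
  split_ifs with h1 h2
  · exact ⟨fun h => absurd h (by decide), fun h => absurd h (disjoint_left.1 hST h1)⟩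
  · exact ⟨fun _ => h2, fun _ => rfl⟩
  · exact ⟨fun h => absurd h (by decide), fun h => absurd h h2⟩

theorem P3_ne (q : P3) : q.1 ≠ 0 := q.2.1.ne_zero

theorem DD3_ne (S : Finset P3) : DD3 S ≠ 0 := prod_ne_zero_iff.2 fun q _ => P3_ne q

theorem PE_ne (e : P3 → ZMod 3) (R : Finset P3) : PE e R ≠ 0 :=
  prod_ne_zero_iff.2 fun q _ => pow_ne_zero _ (P3_ne q)

theorem PE_congr {e e' : P3 → ZMod 3} {R : Finset P3} (h : ∀ q ∈ R, e q = e' q) :
    PE e R = PE e' R := prod_congr rfl fun q hq => by rw [h q hq]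

/-- The exponents modulo `3` of a product. -/
theorem val_add3 (a b : ZMod 3) : a.val + b.val = (a + b).val + 3 * ((a.val + b.val) / 3) := by
  rw [ZMod.val_add]
  exact (Nat.mod_add_div _ _).symm

theorem pow_add3 {R : Type*} [CommRing R] (x : R) (a b : ZMod 3) :
    x ^ a.val * x ^ b.val = x ^ (a + b).val * (x ^ ((a.val + b.val) / 3)) ^ 3 := by
  rw [← pow_add, ← pow_mul, ← pow_add, mul_comm ((a.val + b.val) / 3) 3, ← val_add3]

theorem PE_mul (e e' : P3 → ZMod 3) (R : Finset P3) : ∃ t : 𝓞 K, t ≠ 0 ∧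
    PE e R * PE e' R = PE (fun q => e q + e' q) R * t ^ 3 := by
  refine ⟨∏ q ∈ R, q.1 ^ (((e q).val + (e' q).val) / 3),
    prod_ne_zero_iff.2 fun q _ => pow_ne_zero _ (P3_ne q), ?_⟩
  unfold PE
  rw [← prod_mul_distrib, ← prod_pow, ← prod_mul_distrib]
  exact prod_congr rfl fun q _ => pow_add3 _ _ _

theorem PE_pair {S T R : Finset P3} (hST : Disjoint S T) (hS : S ⊆ R) (hT : T ⊆ R) :
    PE (ez S T) R = DD3 S * DD3 T ^ 2 := by
  have h1 : PE (ez S T) R = PE (ez S T) (S ∪ T) := by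
    symm
    refine prod_subset (union_subset hS hT) fun q _ hq => ?_
    rw [mem_union, not_or] at hq
    rw [ez_zero hq.1 hq.2, ZMod.val_zero, pow_zero]
  rw [h1, PE, prod_union hST]
  congr 1
  · refine prod_congr rfl fun q hq => ?_
    rw [ez_one hq]
    exact pow_one _
  · rw [DD3, ← prod_pow]
    refine prod_congr rfl fun q hq => ?_
    rw [ez_two (disjoint_right.1 hST hq) hq]
    rfl

/-- The two sets of an exponent function. -/
theorem PE_split (e : P3 → ZMod 3) (R : Finset P3) :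
    PE e R = DD3 (R.filter fun q => e q = 1) * DD3 (R.filter fun q => e q = 2) ^ 2 := by
  have hd : Disjoint (R.filter fun q => e q = 1) (R.filter fun q => e q = 2) := by
    rw [disjoint_filter]
    intro q _ h1 h2
    rw [h1] at h2
    exact absurd h2 (by decide)
  rw [← PE_pair hd (filter_subset _ R) (filter_subset _ R)]
  refine PE_congr fun q hq => ?_
  have h3 : ∀ x : ZMod 3, x = 0 ∨ x = 1 ∨ x = 2 := by decide
  rcases h3 (e q) with h | h | h
  · rw [h, ez_zero]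
    · rw [mem_filter, h]
      rintro ⟨_, h1⟩
      exact absurd h1 (by decide)
    · rw [mem_filter, h]
      rintro ⟨_, h1⟩
      exact absurd h1 (by decide)
  · rw [h, ez_one]
    rw [mem_filter]
    exact ⟨hq, h⟩
  · rw [h, ez_two]
    · rw [mem_filter, h]
      rintro ⟨_, h1⟩
      exact absurd h1 (by decide)
    · rw [mem_filter]
      exact ⟨hq, h⟩

/-! ### The units and `s3` -/

/-- The elements of the families (they do not depend on the classes). -/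
def pf (b : Bool) (k j : Fin 3) (y : 𝓞 K) : 𝓞 K := un b k * (s3 ^ (j : ℕ) * y)

theorem ph_pf (i : Idx) (y : 𝓞 K) : ph i y = pf i.1 i.2.1 i.2.2.1 y := rfl

theorem s3_pow_add (j j' : Fin 3) : ∃ t : 𝓞 K, t ≠ 0 ∧
    s3 ^ (j : ℕ) * s3 ^ (j' : ℕ) = s3 ^ ((j + j' : Fin 3) : ℕ) * t ^ 3 := by
  obtain ⟨a, rfl⟩ : ∃ a : ZMod 3, a = j := ⟨j, rfl⟩
  obtain ⟨b, rfl⟩ : ∃ b : ZMod 3, b = j' := ⟨j', rfl⟩
  exact ⟨s3 ^ ((a.val + b.val) / 3), pow_ne_zero _ prime_s3.ne_zero, pow_add3 s3 a b⟩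

theorem wO_pow_add (k k' : Fin 3) :
    wO ^ (k : ℕ) * wO ^ (k' : ℕ) = wO ^ ((k + k' : Fin 3) : ℕ) := by
  obtain ⟨a, rfl⟩ : ∃ a : ZMod 3, a = k := ⟨k, rfl⟩
  obtain ⟨b, rfl⟩ : ∃ b : ZMod 3, b = k' := ⟨k', rfl⟩
  have h := pow_add3 wO a b
  rw [← pow_mul, mul_comm ((a.val + b.val) / 3) 3, pow_mul, wO_cube, one_pow, mul_one] at h
  exact h

theorem sgn_cube (b : Bool) : (if b then (-1 : 𝓞 K) else 1) = (if b then (-1 : 𝓞 K) else 1) ^ 3 := by
  cases b
  · simp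
  · simp
    ring

theorem sgn_ne (b : Bool) : (if b then (-1 : 𝓞 K) else 1) ≠ 0 := by
  cases b
  · simp
  · simp

/-- The class of a product. -/
theorem pf_mul (b b' : Bool) (k k' j j' : Fin 3) {y y' y'' t₀ : 𝓞 K} (ht₀ : t₀ ≠ 0)
    (h : y * y' = y'' * t₀ ^ 3) : ∃ t : 𝓞 K, t ≠ 0 ∧
    pf b k j y * pf b' k' j' y' = pf b (k + k') (j + j') y'' * t ^ 3 := by
  obtain ⟨t, h1, h2⟩ := s3_pow_add j j'
  refine ⟨t * t₀ * (if b' then (-1 : 𝓞 K) else 1), mul_ne_zero (mul_ne_zero h1 ht₀) (sgn_ne b'), ?_⟩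
  have h3 := wO_pow_add k k'
  have h4 := sgn_cube b'
  unfold pf un
  generalize (if b' then (-1 : 𝓞 K) else 1) = σ at h4 ⊢
  generalize (if b then (-1 : 𝓞 K) else 1) = τ
  calc τ * wO ^ (k : ℕ) * (s3 ^ (j : ℕ) * y) * (σ * wO ^ (k' : ℕ) * (s3 ^ (j' : ℕ) * y'))
      = τ * σ * (wO ^ (k : ℕ) * wO ^ (k' : ℕ)) * (s3 ^ (j : ℕ) * s3 ^ (j' : ℕ)) * (y * y') := by
        ring
    _ = τ * σ ^ 3 * wO ^ ((k + k' : Fin 3) : ℕ) * (s3 ^ ((j + j' : Fin 3) : ℕ) * t ^ 3) *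
        (y'' * t₀ ^ 3) := by rw [h2, h3, h, ← h4]
    _ = _ := by ring

/-- Two elements with the same data differ by a cube. -/
theorem pf_sgn (b b' : Bool) (k j : Fin 3) (y : 𝓞 K) : ∃ t : 𝓞 K, IsUnit t ∧
    pf b k j y = pf b' k j y * t ^ 3 := by
  refine ⟨(if b then (-1 : 𝓞 K) else 1) * (if b' then (-1 : 𝓞 K) else 1), ?_, ?_⟩
  · cases b <;> cases b' <;> simp
  · unfold pf un
    cases b <;> cases b' <;> simp <;> ring

/-! ### The cube-free part -/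

theorem exists_cf (n : ℕ) : ∀ a : 𝓞 K, Nz a ≤ n → a ≠ 0 →
    ∃ δ s : 𝓞 K, CF δ ∧ s ≠ 0 ∧ a = δ * s ^ 3 := by
  induction n with
  | zero =>
    intro a ha h0
    exact absurd (Nz_eq_zero.1 (Nat.le_zero.1 ha)) h0
  | succ n ih =>
    intro a ha h0
    by_cases hcf : CF a
    · exact ⟨a, 1, hcf, one_ne_zero, by ring⟩
    · rw [CF_iff] at hcf
      push Not at hcf
      obtain ⟨p, hp, c, hc⟩ := hcf
      have hc0 : c ≠ 0 := by
        rintro rfl
        exact h0 (by rw [hc, mul_zero])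
      have h1 := Nz_two_le hp
      have h2 : Nz c ≠ 0 := fun h => hc0 (Nz_eq_zero.1 h)
      have h3 : Nz a = Nz p ^ 3 * Nz c := by
        rw [hc, Nz_mul, pow_succ, pow_succ, pow_one, Nz_mul, Nz_mul]
        ring
      have h4 : 8 * Nz c ≤ Nz a := by
        rw [h3]
        exact Nat.mul_le_mul_right _ (Nat.pow_le_pow_left h1 3)
      obtain ⟨δ, s, h5, h6, h7⟩ := ih c (by omega) hc0
      refine ⟨δ, p * s, h5, mul_ne_zero hp.ne_zero h6, ?_⟩
      rw [hc, h7]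
      ring

/-- The cube-free part of an element. -/
theorem exists_sf (a : 𝓞 K) (ha : a ≠ 0) : ∃ (b : Bool) (k j : Fin 3) (S T : Finset P3) (s : 𝓞 K),
    Disjoint S T ∧ s ≠ 0 ∧ a = pf b k j (DD3 S * DD3 T ^ 2) * s ^ 3 := by
  obtain ⟨δ, s, h1, h2, h3⟩ := exists_cf (Nz a) a le_rfl ha
  obtain ⟨i, y, ⟨h4, h5, _, _⟩, h6⟩ := exists_ph h1
  obtain ⟨S, T, hST, hy⟩ := prm3.exists_pp (Nz y) le_rfl h5 h4
  have hy' : DD3 S * DD3 T ^ 2 = y := hy
  exact ⟨i.1, i.2.1, i.2.2.1, S, T, s, hST, h2, by rw [h3, ← h6, hy', ph_pf]⟩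

end

end Pool.Agent.Lib.MP_1a91b9_ntN
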