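import Pool.Agent.Lib.MP_1a91b9_ntK.Q.All

/-!
# MC, part R, file Tr: from the sets of primes outside `B` to all the sets of primes
-/

set_option autoImplicit false

namespace Pool.Agent.Lib.MP_1a91b9_ntN

open NumberField Finset Pool.Agent.Lib.MP_1a91b9_ntT Pool.Agent.Lib.MP_1a91b9_ntK
  Pool.Agent.Lib.MP_1a91b9_ntK2 Pool.Agent.Lib.MP_1a91b9_ntK2.D9
open Pool.Agent.Lib.MP_1a91b9_ntH (wO s3 Nz PS nm Sx mem_Sx nm_union one_le_nm)

noncomputable section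

/-- The class modulo `9` of a prime `≡ 1` modulo `3`. -/
def c2 (q : P3) : ZMod 3 × ZMod 3 := (d3.a q, cq q s3)

theorem sum_c2 (S : Finset P3) : ∑ q ∈ S, c2 q = (∑ q ∈ S, d3.a q, ∑ q ∈ S, cq q s3) := by
  refine Prod.ext ?_ ?_
  · rw [Prod.fst_sum]
    rfl
  · rw [Prod.snd_sum]
    rfl

theorem sum_c2_iff {S : Finset P3} {α β : ZMod 3} : ∑ q ∈ S, c2 q = (α, β) ↔
    ∑ q ∈ S, d3.a q = α ∧ ∑ q ∈ S, cq q s3 = β := by
  rw [sum_c2, Prod.mk.injEq]

open Classical in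
/-- The sets of primes outside `B` in the class `g` with the property `Q` have lower density at least
`κ₀` among the sets of primes outside `B` in the class `g`. -/
def DSC (B : Finset P3) (g : ZMod 3 × ZMod 3) (κ₀ : ℝ) (Q : Finset P3 → Prop) : Prop :=
  ∀ ε : ℝ, 0 < ε → ∃ X₀ : ℕ, ∀ X : ℕ, X₀ ≤ X →
    κ₀ * (((Sx P3 X).filter fun S => Disjoint S B ∧ ∑ q ∈ S, c2 q = g).card : ℝ) - ε * X ≤
      (((Sx P3 X).filter fun S => Disjoint S B ∧ ∑ q ∈ S, c2 q = g ∧ Q S).card : ℝ)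

theorem DSC.mono {B : Finset P3} {g : ZMod 3 × ZMod 3} {κ₀ : ℝ} {Q Q' : Finset P3 → Prop}
    (h : DSC B g κ₀ Q) (hQ : ∀ S : Finset P3, Disjoint S B → ∑ q ∈ S, c2 q = g → Q S → Q' S) :
    DSC B g κ₀ Q' := by
  classical
  intro ε hε
  obtain ⟨X₀, hX₀⟩ := h ε hε
  refine ⟨X₀, fun X hX => (hX₀ X hX).trans ?_⟩
  refine Nat.cast_le.2 (card_le_card fun S hS => ?_)
  simp only [mem_filter] at hS ⊢
  exact ⟨hS.1, hS.2.1, hS.2.2.1, hQ S hS.2.1 hS.2.2.1 hS.2.2.2⟩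

/-- the parts in `B` and the classes of the parts outside `B` -/
def IB (B T : Finset P3) (g : ZMod 3 × ZMod 3) : Finset (Finset P3 × (ZMod 3 × ZMod 3)) := by
  classical
  exact ((B \ T).powerset ×ˢ (univ : Finset (ZMod 3 × ZMod 3))).filter
    (fun i : Finset P3 × (ZMod 3 × ZMod 3) => ∑ q ∈ i.1, c2 q + i.2 = g)

theorem mem_IB {B T : Finset P3} {g : ZMod 3 × ZMod 3} {i : Finset P3 × (ZMod 3 × ZMod 3)} :
    i ∈ IB B T g ↔ i.1 ⊆ B \ T ∧ ∑ q ∈ i.1, c2 q + i.2 = g := by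
  classical
  rw [IB, mem_filter, mem_product, mem_powerset]
  constructor
  · rintro ⟨⟨h1, _⟩, h2⟩
    exact ⟨h1, h2⟩
  · rintro ⟨h1, h2⟩
    exact ⟨⟨h1, mem_univ _⟩, h2⟩

open Classical in
theorem cnt_eq {B T : Finset P3} (hT : T ⊆ B) (g : ZMod 3 × ZMod 3) (Q : Finset P3 → Prop) (X : ℕ) :
    ((Sx P3 X).filter fun S => Disjoint S T ∧ ∑ q ∈ S, c2 q = g ∧ Q S).card =
      ∑ i ∈ IB B T g, ((Sx P3 (X / nm i.1)).filter fun S =>
        Disjoint S B ∧ ∑ q ∈ S, c2 q = i.2 ∧ Q (i.1 ∪ S)).card := by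
  rw [card_eq_sum_card_fiberwise (f := fun S : Finset P3 => (S ∩ B, ∑ q ∈ S \ B, c2 q))
    (t := IB B T g) (fun S hS => ?_)]
  · refine sum_congr rfl fun i hi => ?_
    obtain ⟨hi0, hi2⟩ := mem_IB.1 hi
    have hi1 : i.1 ⊆ B := hi0.trans sdiff_subset
    have hiT : Disjoint i.1 T := disjoint_of_subset_left hi0 sdiff_disjoint
    have hpos : 0 < nm i.1 := one_le_nm i.1
    refine card_bij' (fun S _ => S \ B) (fun U _ => i.1 ∪ U) ?_ ?_ ?_ ?_
    · intro S hS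
      simp only [mem_filter, mem_Sx] at hS ⊢
      obtain ⟨⟨h1, h0, h2, h3⟩, h4⟩ := hS
      have h5 : S ∩ B = i.1 := congrArg Prod.fst h4
      have h6 : ∑ q ∈ S \ B, c2 q = i.2 := congrArg Prod.snd h4
      have h7 : i.1 ∪ S \ B = S := by
        rw [← h5, union_comm, sdiff_union_inter]
      have h8 : Disjoint i.1 (S \ B) := disjoint_of_subset_left hi1 disjoint_sdiff
      refine ⟨?_, sdiff_disjoint, h6, ?_⟩
      · rw [Nat.le_div_iff_mul_le hpos, mul_comm, ← nm_union h8, h7]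
        exact h1
      · rw [h7]
        exact h3
    · intro U hU
      simp only [mem_filter, mem_Sx] at hU ⊢
      obtain ⟨h1, h2, h3, h4⟩ := hU
      have h8 : Disjoint i.1 U := disjoint_of_subset_left hi1 h2.symm
      have e1 : (i.1 ∪ U) ∩ B = i.1 := by
        rw [union_inter_distrib_right, inter_eq_left.2 hi1, disjoint_iff_inter_eq_empty.1 h2,
          union_empty]
      have e2 : (i.1 ∪ U) \ B = U := by
        rw [union_sdiff_distrib, sdiff_eq_empty_iff_subset.2 hi1, empty_union,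
          sdiff_eq_self_of_disjoint h2]
      refine ⟨⟨?_, ?_, ?_, h4⟩, ?_⟩
      · rw [Nat.le_div_iff_mul_le hpos, mul_comm, ← nm_union h8] at h1
        exact h1
      · rw [disjoint_union_left]
        exact ⟨hiT, disjoint_of_subset_right hT h2⟩
      · rw [sum_union h8, h3]
        exact hi2
      · rw [e1, e2, h3]
    · intro S hS
      simp only [mem_filter, mem_Sx] at hS
      have h5 : S ∩ B = i.1 := congrArg Prod.fst hS.2
      show i.1 ∪ S \ B = S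
      rw [← h5, union_comm, sdiff_union_inter]
    · intro U hU
      simp only [mem_filter, mem_Sx] at hU
      show (i.1 ∪ U) \ B = U
      rw [union_sdiff_distrib, sdiff_eq_empty_iff_subset.2 hi1, empty_union,
        sdiff_eq_self_of_disjoint hU.2.1]
  · rw [mem_coe, mem_filter] at hS
    rw [mem_coe, mem_IB]
    refine ⟨?_, ?_⟩
    · intro q hq
      have hq2 := mem_inter.1 hq
      exact mem_sdiff.2 ⟨hq2.2, fun h => disjoint_left.1 hS.2.1 hq2.1 h⟩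
    · show ∑ q ∈ S ∩ B, c2 q + ∑ q ∈ S \ B, c2 q = g
      rw [← hS.2.2.1, ← sum_union (disjoint_of_subset_left inter_subset_right disjoint_sdiff),
        union_comm, sdiff_union_inter]

open Classical in
/-- **From the sets of primes outside `B` to the sets of primes outside `T`.** -/
theorem DS_of_DSC {B T : Finset P3} (hT : T ⊆ B) (g : ZMod 3 × ZMod 3) {κ₀ : ℝ}
    {Q : Finset P3 → Prop}
    (h : ∀ B' : Finset P3, B' ⊆ B \ T → ∀ g' : ZMod 3 × ZMod 3, DSC B g' κ₀ fun S => Q (B' ∪ S)) :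
    DSC T g κ₀ Q := by
  intro ε hε
  obtain ⟨n, hn⟩ : ∃ n : ℝ, n = ((IB B T g).card : ℝ) + 1 := ⟨_, rfl⟩
  have hn0 : 0 < n := by
    rw [hn]
    positivity
  have h' : ∀ i : Finset P3 × (ZMod 3 × ZMod 3), ∃ X₀ : ℕ, i ∈ IB B T g → ∀ X : ℕ, X₀ ≤ X →
      κ₀ * (((Sx P3 X).filter fun S => Disjoint S B ∧ ∑ q ∈ S, c2 q = i.2).card : ℝ) -
        ε / n * X ≤ (((Sx P3 X).filter fun S => Disjoint S B ∧ ∑ q ∈ S, c2 q = i.2 ∧
          Q (i.1 ∪ S)).card : ℝ) := by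
    intro i
    by_cases hi : i ∈ IB B T g
    · obtain ⟨X₀, h0⟩ := h i.1 (mem_IB.1 hi).1 i.2 (ε / n) (by positivity)
      exact ⟨X₀, fun _ X hX => h0 X hX⟩
    · exact ⟨0, fun h1 => absurd h1 hi⟩
  choose X₀ hX₀ using h'
  refine ⟨∑ i ∈ IB B T g, X₀ i * nm i.1, fun X hX => ?_⟩
  have hkey : ∀ i ∈ IB B T g,
      κ₀ * (((Sx P3 (X / nm i.1)).filter fun S => Disjoint S B ∧
        ∑ q ∈ S, c2 q = i.2).card : ℝ) - ε / n * X ≤
      (((Sx P3 (X / nm i.1)).filter fun S => Disjoint S B ∧ ∑ q ∈ S, c2 q = i.2 ∧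
        Q (i.1 ∪ S)).card : ℝ) := by
    intro i hi
    have hpos : 0 < nm i.1 := one_le_nm i.1
    have h1 : X₀ i ≤ X / nm i.1 := by
      rw [Nat.le_div_iff_mul_le hpos]
      exact (single_le_sum (f := fun i => X₀ i * nm i.1) (fun _ _ => Nat.zero_le _) hi).trans hX
    have h2 := hX₀ i hi _ h1
    have h3 : ((X / nm i.1 : ℕ) : ℝ) ≤ X := by exact_mod_cast Nat.div_le_self _ _
    have h4 : ε / n * ((X / nm i.1 : ℕ) : ℝ) ≤ ε / n * X :=
      mul_le_mul_of_nonneg_left h3 (by positivity)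
    linarith
  have hs := sum_le_sum hkey
  rw [sum_sub_distrib, ← mul_sum, sum_const, nsmul_eq_mul] at hs
  have e1 := cnt_eq hT g (fun _ => True) X
  have e2 := cnt_eq hT g Q X
  simp only [and_true] at e1
  have e1' : (((Sx P3 X).filter fun S => Disjoint S T ∧ ∑ q ∈ S, c2 q = g).card : ℝ) =
      ∑ i ∈ IB B T g, (((Sx P3 (X / nm i.1)).filter fun S => Disjoint S B ∧
        ∑ q ∈ S, c2 q = i.2).card : ℝ) := by exact_mod_cast e1
  have e2' : (((Sx P3 X).filter fun S => Disjoint S T ∧ ∑ q ∈ S, c2 q = g ∧ Q S).card : ℝ) =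
      ∑ i ∈ IB B T g, (((Sx P3 (X / nm i.1)).filter fun S => Disjoint S B ∧
        ∑ q ∈ S, c2 q = i.2 ∧ Q (i.1 ∪ S)).card : ℝ) := by exact_mod_cast e2
  rw [← e1', ← e2'] at hs
  have hfin : ((IB B T g).card : ℝ) * (ε / n * X) ≤ ε * X := by
    have h5 : ((IB B T g).card : ℝ) ≤ n := by
      rw [hn]
      linarith
    have h6 : ((IB B T g).card : ℝ) * (ε / n * X) ≤ n * (ε / n * X) :=
      mul_le_mul_of_nonneg_right h5 (by positivity)
    have h7 : n * (ε / n * X) = ε * X := by field_simp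
    linarith
  linarith

open Classical in
/-- The families of the cube-free elements. -/
theorem fam_of_DSC {T : Finset P3} {α β : ZMod 3} {κ₀ : ℝ} {Q : Finset P3 → Prop}
    (h : ∀ g : ZMod 3 × ZMod 3, DSC T g κ₀ Q) (ε : ℝ) (hε : 0 < ε) :
    ∃ X₀ : ℕ, ∀ X : ℕ, X₀ ≤ X →
      κ₀ * (((Sx P3 X).filter fun S => Disjoint S T ∧ cl3 (DD3 S * DD3 T ^ 2) = α ∧
        cn3 (DD3 S * DD3 T ^ 2) = β).card : ℝ) - ε * X ≤
      (((Sx P3 X).filter fun S => Disjoint S T ∧ (cl3 (DD3 S * DD3 T ^ 2) = α ∧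
        cn3 (DD3 S * DD3 T ^ 2) = β) ∧ Q S).card : ℝ) := by
  obtain ⟨X₀, h0⟩ := h (α + ∑ q ∈ T, d3.a q, β + ∑ q ∈ T, cq q s3) ε hε
  refine ⟨X₀, fun X hX => ?_⟩
  have e : ∀ S : Finset P3, (cl3 (DD3 S * DD3 T ^ 2) = α ∧ cn3 (DD3 S * DD3 T ^ 2) = β) ↔
      ∑ q ∈ S, c2 q = (α + ∑ q ∈ T, d3.a q, β + ∑ q ∈ T, cq q s3) := by
    intro S
    rw [cl3_pp, cn3_pp, sum_c2_iff, sub_eq_iff_eq_add, sub_eq_iff_eq_add]
  simp only [e]
  exact h0 X hX

end

end Pool.Agent.Lib.MP_1a91b9_ntN
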