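import Pool.Agent.Lib.MP_1a91b9_ntN.R.Defs
import Pool.Agent.Lib.MP_1a91b9_ntN.R.Tr
import Pool.Agent.Lib.MP_1a91b9_ntN.R.Sqf

/-!
# MC, part R, file Den: the density of the cube-free `D` for which all the twists `a D` are good
-/

set_option autoImplicit false

namespace Pool.Agent.Lib.MP_1a91b9_ntN

open NumberField Finset Pool.Agent.Lib.MP_1a91b9_ntT Pool.Agent.Lib.MP_1a91b9_ntK
  Pool.Agent.Lib.MP_1a91b9_ntK2 Pool.Agent.Lib.MP_1a91b9_ntK2.D9
open Pool.Agent.Lib.MP_1a91b9_ntH (wO s3 Nz Sx prime_s3)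

noncomputable section

theorem dsc_of (hJ : DSJ3) {N : ℕ} (hN : 0 < N) (k j : Fin N → Fin 3) (P T : Fin N → Finset P3)
    (B : Finset P3) (hP : ∀ i, P i ⊆ B) (hT : ∀ i, T i ⊆ B) (hd : ∀ i, Disjoint (P i) (T i))
    (hinj : Function.Injective (fun i => (k i, j i, P i, T i))) (g : ZMod 3 × ZMod 3) {κ₀ : ℝ}
    (hκ : κ₀ < Da.cinf3 ^ N) : DSC B g κ₀ fun S => ∀ i, Gd9 (k i) (j i) (S ∪ P i) (T i) := by
  classical
  intro ε hε
  obtain ⟨X₀, h0⟩ := hJ N hN k j P T B hP hT hd hinj g.1 g.2 κ₀ hκ ε hε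
  refine ⟨X₀, fun X hX => ?_⟩
  have e : ∀ S : Finset P3, ∑ q ∈ S, c2 q = g ↔
      (∑ q ∈ S, d3b.a q = g.1 ∧ ∑ q ∈ S, d3b.b q = g.2) := fun S => by
    rw [← Prod.mk.eta (p := g)]
    exact sum_c2_iff
  simp only [e]
  exact h0 X hX

theorem in3_pair (S T : Finset P3) : In3 (DD3 S * DD3 T ^ 2) := by
  rw [pow_two]
  exact (DD3_in3 S).mul ((DD3_in3 T).mul (DD3_in3 T))

theorem z3_ext {x y : ZMod 3} (h1 : x = 1 ↔ y = 1) (h2 : x = 2 ↔ y = 2) : x = y := by
  have key : ∀ x y : ZMod 3, (x = 1 ↔ y = 1) → (x = 2 ↔ y = 2) → x = y := by decide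
  exact key x y h1 h2

/-- The product of the element of a pair and of a label. -/
theorem pair_mul {B B' T P V S' : Finset P3} (hT : T ⊆ B) (hB' : B' ⊆ B \ T) (hP : P ⊆ B)
    (hV : V ⊆ B) (hPV : Disjoint P V) (hS' : Disjoint S' B) : ∃ t : 𝓞 K, t ≠ 0 ∧
    DD3 (B' ∪ S') * DD3 T ^ 2 * (DD3 P * DD3 V ^ 2) =
      DD3 (S' ∪ B.filter fun q => ez B' T q + ez P V q = 1) *
        DD3 (B.filter fun q => ez B' T q + ez P V q = 2) ^ 2 * t ^ 3 := by
  classical
  have hB'B : B' ⊆ B := hB'.trans sdiff_subset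
  have hd : Disjoint (B' ∪ S') T := by
    rw [disjoint_union_left]
    exact ⟨disjoint_of_subset_left hB' sdiff_disjoint, disjoint_of_subset_right hT hS'⟩
  have e1 := PE_pair hd (union_subset (hB'B.trans subset_union_left) subset_union_right)
    (hT.trans subset_union_left : T ⊆ B ∪ S')
  have e2 := PE_pair hPV (hP.trans subset_union_left : P ⊆ B ∪ S') (hV.trans subset_union_left)
  obtain ⟨t, ht, e3⟩ := PE_mul (ez (B' ∪ S') T) (ez P V) (B ∪ S')
  refine ⟨t, ht, ?_⟩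
  rw [← e1, ← e2, e3, PE_split]
  have hin : ∀ q ∈ S', ez (B' ∪ S') T q + ez P V q = 1 := by
    intro q hq
    have h1 : q ∉ B := disjoint_left.1 hS' hq
    rw [ez_one (mem_union_right _ hq), ez_zero (fun h => h1 (hP h)) (fun h => h1 (hV h)), add_zero]
  have hout : ∀ q ∈ B, ez (B' ∪ S') T q = ez B' T q := by
    intro q hq
    have h1 : q ∉ S' := disjoint_right.1 hS' hq
    unfold ez
    simp only [mem_union, h1, or_false]
  have f1 : ((B ∪ S').filter fun q => ez (B' ∪ S') T q + ez P V q = 1) =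
      S' ∪ B.filter fun q => ez B' T q + ez P V q = 1 := by
    ext q
    rw [mem_filter, mem_union, mem_union, mem_filter]
    constructor
    · rintro ⟨h1 | h1, h2⟩
      · rw [hout q h1] at h2
        exact Or.inr ⟨h1, h2⟩
      · exact Or.inl h1
    · rintro (h1 | ⟨h1, h2⟩)
      · exact ⟨Or.inr h1, hin q h1⟩
      · rw [← hout q h1] at h2
        exact ⟨Or.inl h1, h2⟩
  have f2 : ((B ∪ S').filter fun q => ez (B' ∪ S') T q + ez P V q = 2) =
      B.filter fun q => ez B' T q + ez P V q = 2 := by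
    ext q
    rw [mem_filter, mem_union, mem_filter]
    constructor
    · rintro ⟨h1 | h1, h2⟩
      · rw [hout q h1] at h2
        exact ⟨h1, h2⟩
      · rw [hin q h1] at h2
        exact absurd h2 (by decide)
    · rintro ⟨h1, h2⟩
      rw [← hout q h1] at h2
      exact ⟨Or.inl h1, h2⟩
  rw [f1, f2]

/-- **The density of the cube-free `D` for which all the twists by the elements of `A` are good.** -/
theorem den_all (hJ : DSJ3) {A : List (𝓞 K)} (hA : A ≠ []) (hne : ∀ a ∈ A, a ≠ 0)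
    (hpw : A.Pairwise fun a b : 𝓞 K => ¬ ∃ y : K, y ^ 3 * (b : K) = a)
    {m u : 𝓞 K} (hm : m ∣ 9) (hu : ¬ (s3 ^ 3 ∣ m ∧ s3 ^ 3 ∣ u))
    (Pr : 𝓞 K → Prop)
    (hPr : ∀ D : 𝓞 K, CF D → (∀ a ∈ A, ∃ (b : Bool) (k j : Fin 3) (S T : Finset P3) (t : 𝓞 K),
      Disjoint S T ∧ t ≠ 0 ∧ a * D = pf b k j (DD3 S * DD3 T ^ 2) * t ^ 3 ∧ Gd9 k j S T) → Pr D)
    (ε : ℝ) (hε : 0 < ε) :
    ∀ᶠ X : ℝ in Filter.atTop,
      (∏' i : ℕ, (1 + 1 / (3 : ℝ) ^ (i + 1))⁻¹) ^ A.length - ε ≤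
      (Nat.card {x : 𝓞 K // (∀ p, Prime p → ¬ p ^ 3 ∣ x) ∧ m ∣ x - u ∧ |Algebra.norm ℤ x| ≤ X ∧
          Pr x} : ℝ) /
        (Nat.card {x : 𝓞 K // (∀ p, Prime p → ¬ p ^ 3 ∣ x) ∧ m ∣ x - u ∧
          |Algebra.norm ℤ x| ≤ X} : ℝ) := by
  classical
  obtain ⟨N, hN⟩ : ∃ N, N = A.length := ⟨_, rfl⟩
  have hN0 : 0 < N := by
    rw [hN]
    exact List.length_pos_iff.2 hA
  obtain ⟨a, ha⟩ : ∃ a : Fin N → 𝓞 K, (∀ x, x ∈ A ↔ ∃ i, a i = x) ∧
      ∀ i i', i < i' → ¬ ∃ y : K, y ^ 3 * (a i' : K) = a i := by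
    subst hN
    refine ⟨A.get, fun x => ?_, fun i i' hii => ?_⟩
    · rw [List.mem_iff_get]
    · exact List.pairwise_iff_get.1 hpw i i' hii
  obtain ⟨hmem, hdis⟩ := ha
  have h1 : ∀ i, ∃ (b : Bool) (k j : Fin 3) (P V : Finset P3) (s : 𝓞 K), Disjoint P V ∧ s ≠ 0 ∧
      a i = pf b k j (DD3 P * DD3 V ^ 2) * s ^ 3 :=
    fun i => exists_sf (a i) (hne _ ((hmem _).2 ⟨i, rfl⟩))
  choose bb kk jk P V s hPV hs hT using h1
  obtain ⟨B₀, hB₀⟩ : ∃ B : Finset P3, B = univ.biUnion fun i => P i ∪ V i := ⟨_, rfl⟩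
  have hPB : ∀ i, P i ⊆ B₀ := fun i => by
    rw [hB₀]
    exact subset_union_left.trans (subset_biUnion_of_mem (fun i => P i ∪ V i) (mem_univ i))
  have hVB : ∀ i, V i ⊆ B₀ := fun i => by
    rw [hB₀]
    exact subset_union_right.trans (subset_biUnion_of_mem (fun i => P i ∪ V i) (mem_univ i))
  have hlt : ∀ i i', i < i' → kk i = kk i' → jk i = jk i' → P i = P i' → V i = V i' → False := by
    intro i i' hii e1 e2 e3 e4
    apply hdis i i' hii
    obtain ⟨t, ht, h2⟩ := pf_sgn (bb i) (bb i') (kk i) (jk i) (DD3 (P i) * DD3 (V i) ^ 2)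
    have hs0 : ((s i' : 𝓞 K) : K) ≠ 0 := by exact_mod_cast hs i'
    refine ⟨((t * s i : 𝓞 K) : K) / ((s i' : 𝓞 K) : K), ?_⟩
    have h3 : (t * s i) ^ 3 * a i' = a i * (s i') ^ 3 := by
      rw [hT i, hT i', ← e1, ← e2, ← e3, ← e4, h2]
      ring
    have h4 : ((t * s i : 𝓞 K) : K) ^ 3 * ((a i' : 𝓞 K) : K) =
        ((a i : 𝓞 K) : K) * ((s i' : 𝓞 K) : K) ^ 3 := by exact_mod_cast h3
    rw [div_pow, div_mul_eq_mul_div, h4, mul_div_assoc, div_self (pow_ne_zero 3 hs0), mul_one]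
  have hinj : ∀ i i', kk i = kk i' → jk i = jk i' → P i = P i' → V i = V i' → i = i' := by
    intro i i' e1 e2 e3 e4
    rcases lt_trichotomy i i' with h | h | h
    · exact (hlt i i' h e1 e2 e3 e4).elim
    · exact h
    · exact (hlt i' i h e1.symm e2.symm e3.symm e4.symm).elim
  have hc := cinf3_gt
  rw [cinf3_form] at hc
  have hc1 : 0 < Da.cinf3 ^ N := pow_pos (by linarith) N
  rw [cinf3_form, ← hN]
  obtain ⟨κ, hκ1, hκ2⟩ : ∃ κ : ℝ, max 0 (Da.cinf3 ^ N - ε) < κ ∧ κ < Da.cinf3 ^ N :=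
    exists_between (max_lt hc1 (by linarith))
  have key := density_all9 (fun x => m ∣ x - u) (fun i y y' hy hy' h9 => ?_)
    (exists_cf_class hm hu) κ (Da.cinf3 ^ N - ε) ((le_max_left _ _).trans hκ1.le)
    (lt_of_le_of_lt (le_max_right _ _) hκ1)
    (fun i S T => ∀ l, ∃ (b : Bool) (k j : Fin 3) (S1 T1 : Finset P3) (t : 𝓞 K),
      Disjoint S1 T1 ∧ t ≠ 0 ∧ a l * ph i (DD3 S * DD3 T ^ 2) =
        pf b k j (DD3 S1 * DD3 T1 ^ 2) * t ^ 3 ∧ Gd9 k j S1 T1)
    (fun i _ T η hη => ?_) Pr (fun i S T hST hα hβ _ hG => ?_)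
  · filter_upwards [key] with X hX
    simp only [CF_iff] at hX
    exact hX
  · have h1 : m ∣ ph i y - ph i y' := by
      refine hm.trans ?_
      unfold ph
      rw [← mul_sub, ← mul_sub]
      exact Dvd.dvd.mul_left (Dvd.dvd.mul_left h9 _) _
    constructor
    · intro h2
      have e : ph i y' - u = (ph i y - u) - (ph i y - ph i y') := by ring
      rw [e]
      exact dvd_sub h2 h1
    · intro h2
      have e : ph i y - u = (ph i y' - u) + (ph i y - ph i y') := by ring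
      rw [e]
      exact dvd_add h2 h1
  · refine fam_of_DSC (fun g => ?_) η hη
    have hTB : T ⊆ B₀ ∪ T := subset_union_right
    refine DS_of_DSC hTB g fun B' hB' g' => ?_
    have hB'T : Disjoint B' T := disjoint_of_subset_left hB' sdiff_disjoint
    refine (dsc_of hJ hN0 (fun l => i.2.1 + kk l) (fun l => i.2.2.1 + jk l)
      (fun l => (B₀ ∪ T).filter fun q => ez B' T q + ez (P l) (V l) q = 1)
      (fun l => (B₀ ∪ T).filter fun q => ez B' T q + ez (P l) (V l) q = 2) (B₀ ∪ T)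
      (fun l => filter_subset _ _) (fun l => filter_subset _ _) (fun l => ?_) (fun l l' h => ?_)
      g' hκ2).mono ?_
    · rw [disjoint_filter]
      intro q _ h1 h2
      rw [h1] at h2
      exact absurd h2 (by decide)
    · simp only [Prod.mk.injEq] at h
      obtain ⟨e1, e2, e3, e4⟩ := h
      have e5 : ∀ q ∈ B₀ ∪ T, ez (P l) (V l) q = ez (P l') (V l') q := by
        intro q hq
        have h1 : ez B' T q + ez (P l) (V l) q = ez B' T q + ez (P l') (V l') q := by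
          refine z3_ext ?_ ?_
          · have h2 := Finset.ext_iff.1 e3 q
            simp only [mem_filter, hq, true_and] at h2
            exact h2
          · have h2 := Finset.ext_iff.1 e4 q
            simp only [mem_filter, hq, true_and] at h2
            exact h2
        exact add_left_cancel h1
      refine hinj l l' (add_left_cancel e1) (add_left_cancel e2) ?_ ?_
      · ext q
        constructor
        · intro h1
          have h2 := e5 q (mem_union_left _ (hPB l h1))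
          rw [ez_eq_one.2 h1] at h2
          exact ez_eq_one.1 h2.symm
        · intro h1
          have h2 := e5 q (mem_union_left _ (hPB l' h1))
          rw [ez_eq_one.2 h1] at h2
          exact ez_eq_one.1 h2
      · ext q
        constructor
        · intro h1
          have h2 := e5 q (mem_union_left _ (hVB l h1))
          rw [(ez_eq_two (hPV l)).2 h1] at h2
          exact (ez_eq_two (hPV l')).1 h2.symm
        · intro h1
          have h2 := e5 q (mem_union_left _ (hVB l' h1))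
          rw [(ez_eq_two (hPV l')).2 h1] at h2
          exact (ez_eq_two (hPV l)).1 h2
    · intro S hS _ hG l
      obtain ⟨t₀, ht₀, h2⟩ := pair_mul hTB hB' ((hPB l).trans subset_union_left)
        ((hVB l).trans subset_union_left) (hPV l) hS
      obtain ⟨t, ht, h3⟩ := pf_mul i.1 (bb l) i.2.1 (kk l) i.2.2.1 (jk l) ht₀ h2
      refine ⟨i.1, i.2.1 + kk l, i.2.2.1 + jk l, _, _, t * s l, ?_, mul_ne_zero ht (hs l), ?_, hG l⟩
      · rw [disjoint_union_left]
        refine ⟨disjoint_of_subset_right (filter_subset _ _) hS, ?_⟩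
        rw [disjoint_filter]
        intro q _ h4 h5
        rw [h4] at h5
        exact absurd h5 (by decide)
      · rw [ph_pf, hT l]
        linear_combination (s l) ^ 3 * h3
  · refine hPr _ (ph_cf ⟨prm3.pp_cf hST, in3_pair S T, hα, hβ⟩) fun x hx => ?_
    obtain ⟨l, rfl⟩ := (hmem x).1 hx
    exact hG l

end

end Pool.Agent.Lib.MP_1a91b9_ntN
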